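import Pool.Agent.Q255.IR.Stm

set_option autoImplicit false

namespace Pool.Agent.Q255.IR

open Filter Topology MeasureTheory Pool.Agent.Q255.IC
open scoped ENNReal

/-- `log log x` -/
noncomputable def ll (x : ℕ) : ℝ := Real.log (Real.log x)

theorem tendsto_ll : Tendsto ll atTop atTop :=
  Real.tendsto_log_atTop.comp (Real.tendsto_log_atTop.comp tendsto_natCast_atTop_atTop)

theorem tendsto_pi : Tendsto Nat.primeCounting atTop atTop := Nat.tendsto_primeCounting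

theorem pi_pr (n : ℕ) : Nat.primeCounting (pr n) = n + 1 := by
  unfold pr Nat.primeCounting Nat.primeCounting'
  exact Nat.count_nth_succ_of_infinite Nat.infinite_setOf_prime n

theorem tendsto_pr : Tendsto pr atTop atTop :=
  (Nat.nth_strictMono Nat.infinite_setOf_prime).tendsto_atTop

/-- from `x` to `n` -/
theorem of_pi {F : ℕ → ℝ} {l : Filter ℝ} (h : Tendsto (fun x => F (Nat.primeCounting x)) atTop l) :
    Tendsto F atTop l := by
  have h1 := h.comp tendsto_pr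
  have h2 : (fun x => F (Nat.primeCounting x)) ∘ pr = fun n => F (n + 1) := by
    funext n
    simp only [Function.comp_apply, pi_pr]
  rw [h2] at h1
  exact (tendsto_add_atTop_iff_nat 1).1 h1

theorem V_tendsto {b : ℕ → ℝ} {c : ℝ}
    (h : Tendsto (fun x : ℕ => V b (Nat.primeCounting x) - ll x) atTop (𝓝 c)) :
    Tendsto (V b) atTop atTop := by
  have h1 : Tendsto (fun x : ℕ => V b (Nat.primeCounting x)) atTop atTop := by
    have := h.add_atTop tendsto_ll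
    refine this.congr fun x => ?_
    ring
  exact of_pi h1

/-- a lower envelope -/
theorem envelope {ψ : ℕ → ℝ} (h : Tendsto ψ atTop atTop) :
    ∃ φ : ℕ → ℝ, Tendsto φ atTop atTop ∧ ∀ n x, n ≤ x → φ n ≤ ψ x := by
  have hb : BddBelow (Set.range ψ) := by
    obtain ⟨N, hN⟩ := (h.eventually_ge_atTop 0).exists_forall_of_atTop
    refine ⟨min 0 (-∑ i ∈ Finset.range N, |ψ i|), ?_⟩
    rintro _ ⟨x, rfl⟩
    rcases lt_or_ge x N with hx | hx
    · refine (min_le_right _ _).trans ?_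
      have h1 : |ψ x| ≤ ∑ i ∈ Finset.range N, |ψ i| :=
        Finset.single_le_sum (f := fun i => |ψ i|) (fun i _ => abs_nonneg _) (Finset.mem_range.2 hx)
      have h2 := neg_abs_le (ψ x)
      linarith
    · exact (min_le_left _ _).trans (hN x hx)
  have hb' : ∀ n, BddBelow (ψ '' Set.Ici n) := fun n => hb.mono (Set.image_subset_range _ _)
  refine ⟨fun n => sInf (ψ '' Set.Ici n), ?_, fun n x hx => csInf_le (hb' n) ⟨x, hx, rfl⟩⟩
  rw [tendsto_atTop]
  intro M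
  obtain ⟨N, hN⟩ := (h.eventually_ge_atTop M).exists_forall_of_atTop
  filter_upwards [eventually_ge_atTop N] with n hn
  refine le_csInf ⟨ψ n, n, Set.mem_Ici.2 le_rfl, rfl⟩ ?_
  rintro _ ⟨x, hx, rfl⟩
  exact hN x (hn.trans hx)

variable {A B : ℤ}

/-- the four statements, for one curve -/
structure Concl (A B : ℤ) : Prop where
  one : ∀ (ν : Measure (ℕ → Bool)) [IsProbabilityMeasure ν] (κ c : ℝ), 0 < κ → 0 ≤ c →
    (∀ ε : ℝ, 0 < ε → ∀ᶠ x : ℕ in atTop, D ν (Nat.primeCounting x) ≤ (c + ε) * ll x) →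
    ∀ ε : ℝ, 0 < ε → ∀ᶠ x : ℕ in atTop,
      ν.real {ω | κ * ll x ≤ |Real.log (P A B ω x) - ll x / 2|} ≤ 2 * c / κ ^ 2 + ε
  two : ∀ ρ c : ℝ, ρ ≠ 1 / 2 → 0 ≤ c → c ≤ (ρ - 1 / 2) ^ 2 / 2 →
    ∃ ν : Measure (ℕ → Bool), IsProbabilityMeasure ν ∧
      (∃ C : ℝ, ∀ x : ℕ, D ν (Nat.primeCounting x) ≤ c * ll x + C) ∧
      ν {ω | Tendsto (fun x => Real.log (P A B ω x) / ll x) atTop (𝓝 ρ)} =
        ENNReal.ofReal (2 * c / (ρ - 1 / 2) ^ 2)
  three : ∀ (ν : Measure (ℕ → Bool)) [IsProbabilityMeasure ν] (K : ℝ),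
    (∃ᶠ x : ℕ in atTop, D ν (Nat.primeCounting x) ≤ K * ll x) →
      ν {ω | ∃ ρ a : ℝ, 0 < a ∧
        Tendsto (fun x : ℕ => P A B ω x / Real.log x ^ ρ) atTop (𝓝 a)} = 0
  four : ∀ (ψ : ℕ → ℝ) (ρ a : ℝ), Tendsto ψ atTop atTop → 0 < a →
    ∃ ν : Measure (ℕ → Bool), IsProbabilityMeasure ν ∧
      (∀ᶠ x : ℕ in atTop, D ν (Nat.primeCounting x) ≤ ψ x * ll x) ∧
      ∀ᵐ ω ∂ν, Tendsto (fun x : ℕ => P A B ω x / Real.log x ^ ρ) atTop (𝓝 a)

/-- `V/log log x → 1` -/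
theorem ratio_one {b : ℕ → ℝ} {c : ℝ}
    (h : Tendsto (fun x : ℕ => V b (Nat.primeCounting x) - ll x) atTop (𝓝 c)) :
    Tendsto (fun x : ℕ => V b (Nat.primeCounting x) / ll x) atTop (𝓝 1) := by
  have h1 := h.div_atTop tendsto_ll
  have h2 : Tendsto (fun x : ℕ => (V b (Nat.primeCounting x) - ll x) / ll x + 1) atTop (𝓝 (0 + 1)) :=
    h1.add_const 1
  rw [zero_add] at h2
  refine h2.congr' ?_
  filter_upwards [tendsto_ll.eventually_gt_atTop 0] with x hx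
  field_simp
  ring

theorem part_one {m : ℕ → ℝ} {b : ℕ → ℝ} (L : (ℕ → Bool) → ℕ → ℝ)
    (hL : ∀ ω x, L ω x = m x - S b ω (Nat.primeCounting x)) {c₁ c₂ : ℝ}
    (hV : Tendsto (fun x : ℕ => V b (Nat.primeCounting x) - ll x) atTop (𝓝 c₁))
    (hm : Tendsto (fun x : ℕ => m x - ll x / 2) atTop (𝓝 c₂)) (hONE : S_ONE)
    (ν : Measure (ℕ → Bool)) [IsProbabilityMeasure ν] {κ c : ℝ} (hκ : 0 < κ) (hc : 0 ≤ c)
    (hD : ∀ ε : ℝ, 0 < ε → ∀ᶠ x : ℕ in atTop, D ν (Nat.primeCounting x) ≤ (c + ε) * ll x)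
    {ε : ℝ} (hε : 0 < ε) :
    ∀ᶠ x : ℕ in atTop, ν.real {ω | κ * ll x ≤ |L ω x - ll x / 2|} ≤ 2 * c / κ ^ 2 + ε := by
  -- choose `κ' < κ` and `ε'`
  have hcont : Tendsto (fun t : ℝ => ((c + t) * 1 + 0) / (((κ - t) ^ 2 * (1 - t)) / 2 - 0 - t))
      (𝓝[>] 0) (𝓝 (((c + 0) * 1 + 0) / (((κ - 0) ^ 2 * (1 - 0)) / 2 - 0 - 0))) := by
    have hden : ((κ - 0) ^ 2 * (1 - 0)) / 2 - 0 - 0 ≠ (0 : ℝ) := by
      have : 0 < κ ^ 2 := by positivity
      simp only [sub_zero, mul_one]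
      positivity
    refine Tendsto.mono_left ?_ nhdsWithin_le_nhds
    refine Tendsto.div ?_ ?_ hden
    · exact (Continuous.tendsto (by fun_prop) 0)
    · exact (Continuous.tendsto (by fun_prop) 0)
  have hlim : ((c + 0) * 1 + 0) / (((κ - 0) ^ 2 * (1 - 0)) / 2 - 0 - 0) = 2 * c / κ ^ 2 := by
    field_simp
    ring
  rw [hlim] at hcont
  have hev1 := hcont.eventually (gt_mem_nhds (show 2 * c / κ ^ 2 < 2 * c / κ ^ 2 + ε by linarith))
  have hden0 : Tendsto (fun t : ℝ => ((κ - t) ^ 2 * (1 - t)) / 2 - 0 - t) (𝓝[>] 0)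
      (𝓝 (((κ - 0) ^ 2 * (1 - 0)) / 2 - 0 - 0)) :=
    (Continuous.tendsto (by fun_prop) 0).mono_left nhdsWithin_le_nhds
  have hev2 := hden0.eventually (lt_mem_nhds (show (0 : ℝ) < ((κ - 0) ^ 2 * (1 - 0)) / 2 - 0 - 0 by
    simp only [sub_zero, mul_one]; positivity))
  have hev3 : ∀ᶠ t : ℝ in 𝓝[>] 0, t < κ / 2 := by
    filter_upwards [Ioo_mem_nhdsGT (show (0 : ℝ) < κ / 2 by positivity)] with t ht
    exact ht.2
  have hev4 : ∀ᶠ t : ℝ in 𝓝[>] 0, t < 1 / 2 := by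
    filter_upwards [Ioo_mem_nhdsGT (show (0 : ℝ) < 1 / 2 by norm_num)] with t ht
    exact ht.2
  obtain ⟨t, ht1, ht2, ht3, ht4, ht0⟩ :=
    (hev1.and (hev2.and (hev3.and (hev4.and self_mem_nhdsWithin)))).exists
  have ht0' : (0 : ℝ) < t := ht0
  have hr := ratio_one hV
  have hm' : Tendsto (fun x : ℕ => |m x - ll x / 2|) atTop (𝓝 |c₂|) := hm.abs
  have hbig : ∀ M : ℝ, ∀ᶠ x : ℕ in atTop, M ≤ ll x := fun M => tendsto_ll.eventually_ge_atTop M
  have hκt : 0 < κ - t := by linarith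
  filter_upwards [hD (t / 2) (by positivity), hr.eventually (lt_mem_nhds (show 1 - t < 1 by linarith)),
    hr.eventually (gt_mem_nhds (show (1 : ℝ) < 1 + t / (2 * κ) by
      have : 0 < t / (2 * κ) := by positivity
      linarith)),
    hm'.eventually (gt_mem_nhds (show |c₂| < |c₂| + 1 by linarith)),
    hbig ((|c₂| + 1) * 2 / t + 1), hbig (2 * Real.log 2 / t + 1)] with x h1 h2 h3 h4 h5 h6
  have hlog2 : 0 < Real.log 2 := Real.log_pos (by norm_num)
  have hll : 0 < ll x := by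
    have : 0 ≤ (|c₂| + 1) * 2 / t := by positivity
    linarith
  set n := Nat.primeCounting x with hn
  have hVlow : (1 - t) * ll x ≤ V b n := by
    rw [lt_div_iff₀ hll] at h2
    exact h2.le
  have hVup : V b n ≤ (1 + t / (2 * κ)) * ll x := by
    rw [div_lt_iff₀ hll] at h3
    exact h3.le
  have hV0 : 0 ≤ V b n := Finset.sum_nonneg fun i _ => sq_nonneg _
  have hsub : {ω | κ * ll x ≤ |L ω x - ll x / 2|} ⊆ {ω | (κ - t) * V b n ≤ |S b ω n|} := by
    intro ω hω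
    have hω' : κ * ll x ≤ |L ω x - ll x / 2| := hω
    show (κ - t) * V b n ≤ |S b ω n|
    have e1 : L ω x - ll x / 2 = (m x - ll x / 2) - S b ω n := by
      rw [hL]
      ring
    have e2 : |L ω x - ll x / 2| ≤ |m x - ll x / 2| + |S b ω n| := by
      rw [e1]
      exact abs_sub _ _
    have e3 : (|c₂| + 1) ≤ t / 2 * ll x := by
      have : (|c₂| + 1) * 2 / t ≤ ll x := by linarith
      rw [div_le_iff₀ ht0'] at this
      linarith
    have e4 : (κ - t) * V b n ≤ (κ - t) * ((1 + t / (2 * κ)) * ll x) :=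
      mul_le_mul_of_nonneg_left hVup hκt.le
    have e5 : (κ - t) * ((1 + t / (2 * κ)) * ll x) ≤ (κ - t / 2) * ll x := by
      have e6 : (κ - t) * (1 + t / (2 * κ)) ≤ κ - t / 2 := by
        have e7 : κ * (t / (2 * κ)) = t / 2 := by field_simp
        have e8 : 0 ≤ t * (t / (2 * κ)) := by positivity
        nlinarith
      calc (κ - t) * ((1 + t / (2 * κ)) * ll x) = ((κ - t) * (1 + t / (2 * κ))) * ll x := by ring
        _ ≤ _ := mul_le_mul_of_nonneg_right e6 hll.le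
    linarith
  have hq := hONE ν b (κ - t) n hκt.le
  set q := ν.real {ω | (κ - t) * V b n ≤ |S b ω n|} with hqd
  have hmono : ν.real {ω | κ * ll x ≤ |L ω x - ll x / 2|} ≤ q := measureReal_mono hsub
  have hq0 : 0 ≤ q := measureReal_nonneg
  have hlog : Real.log 2 ≤ t / 2 * ll x := by
    have : 2 * Real.log 2 / t ≤ ll x := by linarith
    rw [div_le_iff₀ ht0'] at this
    linarith
  have hlow : (((κ - t) ^ 2 * (1 - t)) / 2 - 0 - t) * ll x ≤ (κ - t) ^ 2 * V b n / 2 - Real.log 2 := by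
    have e9 : (κ - t) ^ 2 * ((1 - t) * ll x) ≤ (κ - t) ^ 2 * V b n :=
      mul_le_mul_of_nonneg_left hVlow (sq_nonneg _)
    nlinarith
  have hfin : q * ((((κ - t) ^ 2 * (1 - t)) / 2 - 0 - t) * ll x) ≤ (c + t) * ll x := by
    calc q * ((((κ - t) ^ 2 * (1 - t)) / 2 - 0 - t) * ll x) ≤
        q * ((κ - t) ^ 2 * V b n / 2 - Real.log 2) := mul_le_mul_of_nonneg_left hlow hq0
      _ ≤ D ν n + Real.log 2 := hq
      _ ≤ (c + t / 2) * ll x + t / 2 * ll x := by linarith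
      _ = (c + t) * ll x := by ring
  have hq1 : q ≤ ((c + t) * 1 + 0) / (((κ - t) ^ 2 * (1 - t)) / 2 - 0 - t) := by
    rw [le_div_iff₀ ht2, mul_one, add_zero]
    have := (mul_le_mul_iff_left₀ hll).1 (show (q * (((κ - t) ^ 2 * (1 - t)) / 2 - 0 - t)) * ll x ≤
      (c + t) * ll x by linarith [hfin])
    exact this
  linarith

end Pool.Agent.Q255.IR
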