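import Pool.Agent.Q255.IR.Fin

set_option autoImplicit false

namespace Pool.Agent.Q255.IR

open Filter Topology MeasureTheory Pool.Agent.Q255.IC
open scoped ENNReal

variable {m : ℕ → ℝ} {b : ℕ → ℝ} (L : (ℕ → Bool) → ℕ → ℝ)

theorem tendsto_of_hyp (hL : ∀ ω x, L ω x = m x - S b ω (Nat.primeCounting x)) {c₁ c₂ : ℝ}
    (hV : Tendsto (fun x : ℕ => V b (Nat.primeCounting x) - ll x) atTop (𝓝 c₁))
    (hm : Tendsto (fun x : ℕ => m x - ll x / 2) atTop (𝓝 c₂)) (ω : ℕ → Bool) (ρ l : ℝ) :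
    Tendsto (fun x => L ω x - ρ * ll x) atTop (𝓝 l) ↔
      Tendsto (fun n => S b ω n + (ρ - 1 / 2) * V b n) atTop (𝓝 (c₂ + (ρ - 1 / 2) * c₁ - l)) := by
  have hid : ∀ x, S b ω (Nat.primeCounting x) + (ρ - 1 / 2) * V b (Nat.primeCounting x) =
      (m x - ll x / 2) + (ρ - 1 / 2) * (V b (Nat.primeCounting x) - ll x) - (L ω x - ρ * ll x) := by
    intro x
    rw [hL]
    ring
  constructor
  · intro h
    refine of_pi (F := fun n => S b ω n + (ρ - 1 / 2) * V b n) ?_
    simp only [hid]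
    exact (hm.add (hV.const_mul _)).sub h
  · intro h
    have h1 := h.comp tendsto_pi
    have h2 := ((hm.add (hV.const_mul (ρ - 1 / 2)))).sub h1
    have e : c₂ + (ρ - 1 / 2) * c₁ - (c₂ + (ρ - 1 / 2) * c₁ - l) = l := by ring
    rw [e] at h2
    refine h2.congr fun x => ?_
    simp only [Function.comp_apply, hid]
    ring

theorem part_two (hL : ∀ ω x, L ω x = m x - S b ω (Nat.primeCounting x)) {c₁ c₂ : ℝ}
    (hb : Tendsto b atTop (𝓝 0))
    (hV : Tendsto (fun x : ℕ => V b (Nat.primeCounting x) - ll x) atTop (𝓝 c₁))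
    (hm : Tendsto (fun x : ℕ => m x - ll x / 2) atTop (𝓝 c₂)) (hONE : S_ONE) (hTILT : S_TILT)
    (hMIX : S_MIX) {ρ c : ℝ} (hρ : ρ ≠ 1 / 2) (hc : 0 ≤ c) (hc2 : c ≤ (ρ - 1 / 2) ^ 2 / 2) :
    ∃ ν : Measure (ℕ → Bool), IsProbabilityMeasure ν ∧
      (∃ C : ℝ, ∀ x : ℕ, D ν (Nat.primeCounting x) ≤ c * ll x + C) ∧
      ν {ω | Tendsto (fun x => L ω x / ll x) atTop (𝓝 ρ)} =
        ENNReal.ofReal (2 * c / (ρ - 1 / 2) ^ 2) := by
  have hVt := V_tendsto hV
  set κ := ρ - 1 / 2 with hκ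
  have hκ0 : κ ≠ 0 := sub_ne_zero.2 hρ
  have hκ2 : 0 < κ ^ 2 := by positivity
  set q : ℝ := 2 * c / κ ^ 2 with hq
  have hq0 : 0 ≤ q := by positivity
  have hq1 : q ≤ 1 := by rw [hq, div_le_one hκ2]; linarith
  obtain ⟨ν₁, hp1, hD1, ha1⟩ := hTILT b κ hb hVt
  obtain ⟨ν₀, hp0, hD0, -⟩ := hTILT b 0 hb hVt
  obtain ⟨hpm, hconc⟩ := hMIX ν₁ ν₀ q hq0 hq1
  set ν := ENNReal.ofReal q • ν₁ + ENNReal.ofReal (1 - q) • ν₀ with hν
  have hDn : ∀ n : ℕ, D ν n ≤ c * V b n := by
    intro n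
    have h1 := hconc n
    have h2 := hD1 n
    have h3 := hD0 n
    unfold D at h2 h3 ⊢
    have h4 : 0 ≤ 1 - q := by linarith
    have h5 : q * (κ ^ 2 * V b n / 2) = c * V b n := by
      rw [hq]
      field_simp
    have h6 := mul_le_mul_of_nonneg_left h2 hq0
    have h7 := mul_le_mul_of_nonneg_left h3 h4
    simp only [ne_eq, OfNat.ofNat_ne_zero, not_false_eq_true, zero_pow, zero_mul, zero_div] at h7
    nlinarith
  have hr := ratio_one hV
  -- the almost sure limit
  have hae : ∀ᵐ ω ∂ν₁, ω ∈ {ω | Tendsto (fun x => L ω x / ll x) atTop (𝓝 ρ)} := by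
    filter_upwards [ha1] with ω hω
    show Tendsto (fun x => L ω x / ll x) atTop (𝓝 ρ)
    have h1 : Tendsto (fun x => S b ω (Nat.primeCounting x) / V b (Nat.primeCounting x)) atTop
        (𝓝 (-κ)) := hω.comp tendsto_pi
    have h2 := (hm.div_atTop tendsto_ll).sub (h1.mul hr)
    have h3 := h2.const_add (1 / 2 : ℝ)
    have e : (1 / 2 : ℝ) + (0 - -κ * 1) = ρ := by rw [hκ]; ring
    rw [e] at h3
    refine h3.congr' ?_
    filter_upwards [tendsto_ll.eventually_gt_atTop 0, (hVt.comp tendsto_pi).eventually_gt_atTop 0]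
      with x hx hx2
    have hx2' : V b (Nat.primeCounting x) ≠ 0 := ne_of_gt hx2
    rw [hL]
    field_simp
    ring
  refine ⟨ν, hpm, ?_, le_antisymm ?_ ?_⟩
  · obtain ⟨C, hC⟩ := hV.bddAbove_range
    refine ⟨c * C, fun x => (hDn _).trans ?_⟩
    have : V b (Nat.primeCounting x) - ll x ≤ C := hC ⟨x, rfl⟩
    nlinarith [mul_le_mul_of_nonneg_left this hc]
  · -- upper bound
    have habs : 0 < |κ| := abs_pos.2 hκ0
    have key : ∀ δ : ℝ, 0 < δ → δ < |κ| → ν {ω | Tendsto (fun x => L ω x / ll x) atTop (𝓝 ρ)} ≤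
        ENNReal.ofReal (2 * c / (|κ| - δ) ^ 2 + δ) := by
      intro δ hδ hδκ
      have hκδ : 0 < |κ| - δ := by linarith
      have h1 := part_one L hL hV hm hONE ν hκδ hc (fun ε hε => by
        have hup := hr.eventually (gt_mem_nhds (show (1 : ℝ) < 1 + ε / (c + 1) by
          have : 0 < ε / (c + 1) := by positivity
          linarith))
        filter_upwards [hup, tendsto_ll.eventually_gt_atTop 0] with x hx hx0
        rw [div_lt_iff₀ hx0] at hx
        refine (hDn _).trans ?_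
        have h3 : c * (ε / (c + 1)) ≤ ε := by
          rw [mul_div_assoc', div_le_iff₀ (by positivity)]
          nlinarith
        calc c * V b (Nat.primeCounting x) ≤ c * ((1 + ε / (c + 1)) * ll x) :=
              mul_le_mul_of_nonneg_left hx.le hc
          _ = (c + c * (ε / (c + 1))) * ll x := by ring
          _ ≤ (c + ε) * ll x := by gcongr) hδ
      obtain ⟨X, hX⟩ := h1.exists_forall_of_atTop
      -- the sets `E_Y = ⋂_{x ≥ Y} {...}`
      set F : ℕ → Set (ℕ → Bool) := fun x => {ω | (|κ| - δ) * ll x ≤ |L ω x - ll x / 2|} with hF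
      set G : ℕ → Set (ℕ → Bool) := fun Y => ⋂ x ≥ Y, F x with hG
      have hmono : Monotone G := by
        intro Y Z hYZ ω hω
        simp only [hG, Set.mem_iInter] at hω ⊢
        exact fun x hx => hω x (hYZ.trans hx)
      have hsub : {ω | Tendsto (fun x => L ω x / ll x) atTop (𝓝 ρ)} ⊆ ⋃ Y, G Y := by
        intro ω hω
        have h4 : Tendsto (fun x => |L ω x / ll x - 1 / 2|) atTop (𝓝 |κ|) := by
          have := (Tendsto.sub_const hω (1 / 2 : ℝ)).abs
          exact this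
        have h5 := (h4.eventually (lt_mem_nhds (show |κ| - δ < |κ| by linarith))).and
          (tendsto_ll.eventually_gt_atTop 0)
        obtain ⟨Y, hY⟩ := h5.exists_forall_of_atTop
        rw [Set.mem_iUnion]
        refine ⟨Y, ?_⟩
        simp only [hG, Set.mem_iInter]
        intro x hx
        obtain ⟨h6, h7⟩ := hY x hx
        show (|κ| - δ) * ll x ≤ |L ω x - ll x / 2|
        have h8 : |L ω x - ll x / 2| = |L ω x / ll x - 1 / 2| * ll x := by
          rw [← abs_of_pos h7, ← abs_mul, abs_of_pos h7]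
          congr 1
          field_simp
        rw [h8]
        exact mul_le_mul_of_nonneg_right h6.le h7.le
      calc ν {ω | Tendsto (fun x => L ω x / ll x) atTop (𝓝 ρ)} ≤ ν (⋃ Y, G Y) := measure_mono hsub
        _ = ⨆ Y, ν (G Y) := hmono.measure_iUnion
        _ ≤ ENNReal.ofReal (2 * c / (|κ| - δ) ^ 2 + δ) := by
          refine iSup_le fun Y => ?_
          have h9 : G Y ⊆ F (max X Y) := by
            intro ω hω
            simp only [hG, Set.mem_iInter] at hω
            exact hω _ (le_max_right _ _)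
          refine (measure_mono h9).trans ?_
          rw [← ofReal_measureReal]
          exact ENNReal.ofReal_le_ofReal (hX _ (le_max_left _ _))
    have hlim : Tendsto (fun δ : ℝ => ENNReal.ofReal (2 * c / (|κ| - δ) ^ 2 + δ)) (𝓝[>] 0)
        (𝓝 (ENNReal.ofReal (2 * c / (|κ| - 0) ^ 2 + 0))) := by
      refine (ENNReal.continuous_ofReal.tendsto _).comp ?_
      refine Tendsto.mono_left ?_ nhdsWithin_le_nhds
      refine Tendsto.add ?_ tendsto_id
      refine Tendsto.div tendsto_const_nhds ?_ (by simp [hκ0])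
      exact Continuous.tendsto (by fun_prop) 0
    have hfin : ENNReal.ofReal (2 * c / (|κ| - 0) ^ 2 + 0) = ENNReal.ofReal q := by
      rw [sub_zero, add_zero, sq_abs]
    rw [hfin] at hlim
    refine ge_of_tendsto hlim ?_
    filter_upwards [Ioo_mem_nhdsGT habs] with δ hδ
    exact key δ hδ.1 hδ.2
  · have h6 := measure_one_of_ae' hae
    rw [hν, Measure.add_apply, Measure.smul_apply, h6, smul_eq_mul, mul_one]
    exact le_self_add
where
  measure_one_of_ae' {ν : Measure (ℕ → Bool)} [IsProbabilityMeasure ν] {S : Set (ℕ → Bool)}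
      (h : ∀ᵐ ω ∂ν, ω ∈ S) : ν S = 1 := by
    refine le_antisymm prob_le_one ?_
    have h1 : ν Sᶜ = 0 := h
    calc (1 : ℝ≥0∞) = ν Set.univ := measure_univ.symm
      _ ≤ ν S + ν Sᶜ := by
          rw [← Set.union_compl_self S]
          exact measure_union_le _ _
      _ = ν S := by rw [h1, add_zero]

end Pool.Agent.Q255.IR
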