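import Pool.Agent.Q255.IR.Fin2

set_option autoImplicit false

namespace Pool.Agent.Q255.IR

open Filter Topology MeasureTheory Pool.Agent.Q255.IC
open scoped ENNReal

variable {m : ℕ → ℝ} {b : ℕ → ℝ} (L : (ℕ → Bool) → ℕ → ℝ)

theorem primeCounting_le (x : ℕ) : Nat.primeCounting x ≤ x := by
  have h1 := Nat.add_two_le_nth_prime
  unfold Nat.primeCounting Nat.primeCounting'
  rw [Nat.count_succ]
  by_contra h
  push Not at h
  have h2 : Nat.count Nat.Prime x ≤ x := Nat.count_le _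
  rcases Nat.lt_or_ge x 2 with hx | hx
  · interval_cases x <;> simp_all [Nat.count_succ, Nat.not_prime_zero, Nat.not_prime_one]
  · have h3 : Nat.count Nat.Prime x < x := by
      have h4 := Nat.count_add Nat.Prime 1 (x - 1)
      rw [show 1 + (x - 1) = x by omega] at h4
      have h5 : Nat.count Nat.Prime 1 = 0 := by
        simp [Nat.count_succ, Nat.not_prime_zero]
      have h6 : Nat.count (fun k => Nat.Prime (1 + k)) (x - 1) ≤ x - 1 := Nat.count_le _
      omega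
    split_ifs at h <;> omega

theorem log_quot {Q : ℕ → ℝ} (hQ : ∀ x, 0 < Q x) {ρ a : ℝ} (ha : 0 < a) :
    Tendsto (fun x : ℕ => Q x / Real.log x ^ ρ) atTop (𝓝 a) ↔
      Tendsto (fun x : ℕ => Real.log (Q x) - ρ * ll x) atTop (𝓝 (Real.log a)) := by
  have hlogpos : ∀ᶠ x : ℕ in atTop, 0 < Real.log (x : ℝ) := by
    filter_upwards [eventually_ge_atTop 2] with x hx
    exact Real.log_pos (by exact_mod_cast hx)
  have hid : ∀ᶠ x : ℕ in atTop, Real.log (Q x / Real.log x ^ ρ) = Real.log (Q x) - ρ * ll x := by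
    filter_upwards [hlogpos] with x hx
    rw [Real.log_div (hQ x).ne' (Real.rpow_pos_of_pos hx ρ).ne', Real.log_rpow hx]
    rfl
  constructor
  · intro h
    exact ((Real.continuousAt_log ha.ne').tendsto.comp h).congr' hid
  · intro h
    have h1 := (Real.continuous_exp.tendsto _).comp h
    rw [Real.exp_log ha] at h1
    refine h1.congr' ?_
    filter_upwards [hlogpos, hid] with x hx hx2
    simp only [Function.comp_apply]
    rw [← hx2, Real.exp_log (div_pos (hQ x) (Real.rpow_pos_of_pos hx ρ))]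

theorem part_three (hL : ∀ ω x, L ω x = m x - S b ω (Nat.primeCounting x)) {c₁ c₂ : ℝ}
    (hb : Tendsto b atTop (𝓝 0))
    (hV : Tendsto (fun x : ℕ => V b (Nat.primeCounting x) - ll x) atTop (𝓝 c₁))
    (hm : Tendsto (fun x : ℕ => m x - ll x / 2) atTop (𝓝 c₂)) (hNO : S_NOLIM) (hDPI : S_DPI)
    (ν : Measure (ℕ → Bool)) [IsProbabilityMeasure ν] (K : ℝ)
    (hK : ∃ᶠ x : ℕ in atTop, D ν (Nat.primeCounting x) ≤ K * ll x) :
    ν {ω | ∃ ρ l : ℝ, Tendsto (fun x => L ω x - ρ * ll x) atTop (𝓝 l)} = 0 := by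
  have hVt := V_tendsto hV
  have hr := ratio_one hV
  have hD0 : ∀ n, 0 ≤ D ν n := fun n => (hDPI ν n ∅).1
  have hfreq : ∃ᶠ n in atTop, D ν n ≤ (2 * |K|) * V b n := by
    have h1 : ∃ᶠ x : ℕ in atTop, D ν (Nat.primeCounting x) ≤
        (2 * |K|) * V b (Nat.primeCounting x) := by
      refine (hK.and_eventually ((hr.eventually (lt_mem_nhds (show (1 / 2 : ℝ) < 1 by norm_num))).and
        (tendsto_ll.eventually_gt_atTop 0))).mono ?_
      rintro x ⟨h2, h3, h4⟩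
      rw [lt_div_iff₀ h4] at h3
      have h5 := le_abs_self K
      have h6 := abs_nonneg K
      calc D ν (Nat.primeCounting x) ≤ K * ll x := h2
        _ ≤ |K| * ll x := mul_le_mul_of_nonneg_right h5 h4.le
        _ ≤ |K| * (2 * V b (Nat.primeCounting x)) := mul_le_mul_of_nonneg_left (by linarith) h6
        _ = _ := by ring
    exact tendsto_pi.frequently h1
  have hg : ∀ᶠ n in atTop, |V b n| ≤ V b n ^ 2 := by
    filter_upwards [hVt.eventually_ge_atTop 1] with n hn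
    rw [abs_of_nonneg (by linarith)]
    nlinarith
  have h0 := hNO ν b (V b) (fun _ => 0) (2 * |K|) hb hVt hg hfreq
  refine measure_mono_null ?_ h0
  rintro ω ⟨ρ, l, h⟩
  have h7 := (tendsto_of_hyp L hL hV hm ω ρ l).1 h
  refine ⟨ρ - 1 / 2, c₂ + (ρ - 1 / 2) * c₁ - l, ?_⟩
  simpa using h7

theorem part_four (hL : ∀ ω x, L ω x = m x - S b ω (Nat.primeCounting x)) {c₁ c₂ : ℝ}
    (hb : Tendsto b atTop (𝓝 0))
    (hV : Tendsto (fun x : ℕ => V b (Nat.primeCounting x) - ll x) atTop (𝓝 c₁))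
    (hm : Tendsto (fun x : ℕ => m x - ll x / 2) atTop (𝓝 c₂)) (hFREE : S_FREE)
    {ψ : ℕ → ℝ} (hψ : Tendsto ψ atTop atTop) (ρ l : ℝ) :
    ∃ ν : Measure (ℕ → Bool), IsProbabilityMeasure ν ∧
      (∀ᶠ x : ℕ in atTop, D ν (Nat.primeCounting x) ≤ ψ x * ll x) ∧
      ∀ᵐ ω ∂ν, Tendsto (fun x => L ω x - ρ * ll x) atTop (𝓝 l) := by
  have hVt := V_tendsto hV
  have hr := ratio_one hV
  obtain ⟨φ, hφ, hφψ⟩ := envelope hψ
  have hφ2 : Tendsto (fun n => φ n / 2) atTop atTop := hφ.atTop_div_const (by norm_num)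
  obtain ⟨ν, hp, hD, ha⟩ := hFREE b (fun n => φ n / 2) (ρ - 1 / 2) (c₂ + (ρ - 1 / 2) * c₁ - l) hb hVt
    hφ2
  refine ⟨ν, hp, ?_, ?_⟩
  · filter_upwards [tendsto_pi.eventually hD, hr.eventually (gt_mem_nhds (show (1 : ℝ) < 2 by norm_num)),
      tendsto_ll.eventually_gt_atTop 0, (hφ.comp tendsto_pi).eventually_ge_atTop 0] with x h1 h2 h3 h4
    rw [div_lt_iff₀ h3] at h2
    have h5 : φ (Nat.primeCounting x) ≤ ψ x := by
      refine hφψ _ _ ?_
      exact primeCounting_le x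
    have h4' : 0 ≤ φ (Nat.primeCounting x) := h4
    calc D ν (Nat.primeCounting x) ≤ φ (Nat.primeCounting x) / 2 * V b (Nat.primeCounting x) := h1
      _ ≤ φ (Nat.primeCounting x) / 2 * (2 * ll x) :=
          mul_le_mul_of_nonneg_left h2.le (by linarith)
      _ = φ (Nat.primeCounting x) * ll x := by ring
      _ ≤ ψ x * ll x := mul_le_mul_of_nonneg_right h5 h3.le
  · filter_upwards [ha] with ω hω
    exact (tendsto_of_hyp L hL hV hm ω ρ l).2 hω

theorem concl {A B : ℤ} (hΔ : 4 * A ^ 3 + 27 * B ^ 2 ≠ 0) (hRS : RankinSelberg A B) (hDPI : S_DPI)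
    (hONE : S_ONE) (hTILT : S_TILT) (hMIX : S_MIX) (hNO : S_NOLIM) (hFREE : S_FREE) (h1 : S_PR1)
    (h2 : S_PR2) : Concl A B := by
  obtain ⟨hb, hP⟩ := h1 A B hΔ
  obtain ⟨c₁, c₂, hV, hm⟩ := h2 A B hΔ hRS
  set L : (ℕ → Bool) → ℕ → ℝ := fun ω x => Real.log (P A B ω x) with hLd
  have hL : ∀ ω x, L ω x = mE A B x - S (bE A B) ω (Nat.primeCounting x) := fun ω x => (hP ω x).2
  refine ⟨?_, ?_, ?_, ?_⟩
  · intro ν _ κ c hκ hc hD ε hε
    exact part_one L hL hV hm hONE ν hκ hc hD hε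
  · intro ρ c hρ hc hc2
    exact part_two L hL hb hV hm hONE hTILT hMIX hρ hc hc2
  · intro ν _ K hK
    refine measure_mono_null ?_ (part_three L hL hb hV hm hNO hDPI ν K hK)
    rintro ω ⟨ρ, a, ha, h⟩
    exact ⟨ρ, Real.log a, (log_quot (fun x => (hP ω x).1) ha).1 h⟩
  · intro ψ ρ a hψ ha
    obtain ⟨ν, hp, hD, hae⟩ := part_four L hL hb hV hm hFREE hψ ρ (Real.log a)
    refine ⟨ν, hp, hD, ?_⟩
    filter_upwards [hae] with ω hω
    exact (log_quot (fun x => (hP ω x).1) ha).2 hω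

end Pool.Agent.Q255.IR
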