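import Pool.Agent.TH941.Newform
import Pool.Agent.Q24.IR.PR2

/-!
# The theorem of Rankin and Selberg for the primes, with a limit

The starting files prove `∑_{√x < p ≤ x} (c(p)²/p - 1)/p → 0` for the newform of an elliptic curve; here
the sum over all `p ≤ x` converges.
-/

set_option autoImplicit false

namespace Pool.Agent.Q255.IR

open Filter Topology MeasureTheory Set CongruenceSubgroup
open scoped MatrixGroups
open Pool.Agent.TH941 (PS Hecke cr gg)
open Pool.Agent.W263.BSD (stp stp_meas stp_LInt stp_hasSum stp_abs lap LInt tauber_limit)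

section

variable {c : ℕ → ℝ} {B : ℝ}

theorem stp_slow (hc : PS c B) {ε : ℝ} (hε : 0 < ε) : ∃ δ > 0, ∃ u0 : ℝ, ∀ u v : ℝ,
    u0 ≤ u → u ≤ v → v ≤ (1 + δ) * u → stp c v ≤ stp c u + ε := by
  obtain ⟨u0, h2, h⟩ := hc.slow1 (show 0 < ε / 2 by positivity)
  have hB := hc.pos
  refine ⟨ε / (2 * B), by positivity, u0, fun u v h3 h4 h5 => ?_⟩
  have hu : 0 < u := by linarith
  have h6 := h u v h3 h4
  have h9 : B * Real.log (v / u) ≤ ε / 2 := by
    have e1 : v / u ≤ 1 + ε / (2 * B) := by rw [div_le_iff₀ hu]; exact h5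
    have e2 : 0 < v / u := div_pos (by linarith) hu
    have e3 := Real.log_le_sub_one_of_pos e2
    have e4 : Real.log (v / u) ≤ ε / (2 * B) := by linarith
    refine (mul_le_mul_of_nonneg_left e4 hB.le).trans (le_of_eq ?_)
    field_simp
  have h11 := abs_le.mp h6
  linarith

/-- the majorant of the differences -/
noncomputable def gm (B D t : ℝ) : ℝ := (B * t + 2 * B * t ^ (-(1 / 2) : ℝ) + D) * Real.exp (-t)

theorem gm_int (B D : ℝ) : IntegrableOn (gm B D) (Ioi 0) := by
  have h1 := (Real.GammaIntegral_convergent (show (0 : ℝ) < 2 by norm_num)).const_mul B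
  have h2 := (Real.GammaIntegral_convergent (show (0 : ℝ) < 1 / 2 by norm_num)).const_mul (2 * B)
  have h3 := (Real.GammaIntegral_convergent (show (0 : ℝ) < 1 by norm_num)).const_mul D
  have h4 : IntegrableOn (fun t : ℝ => B * (Real.exp (-t) * t ^ ((2 : ℝ) - 1)) +
      2 * B * (Real.exp (-t) * t ^ ((1 : ℝ) / 2 - 1)) + D * (Real.exp (-t) * t ^ ((1 : ℝ) - 1)))
      (Ioi 0) := (h1.add h2).add h3
  refine h4.congr_fun (fun t ht => ?_) measurableSet_Ioi
  have ht0 : (0 : ℝ) < t := ht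
  unfold gm
  beta_reduce
  rw [show (2 : ℝ) - 1 = 1 by norm_num, show (1 : ℝ) / 2 - 1 = -(1 / 2) by norm_num,
    show (1 : ℝ) - 1 = 0 by norm_num, Real.rpow_one, Real.rpow_zero]
  ring

theorem log_le_two_rpow {y : ℝ} (hy : 0 < y) : -Real.log y ≤ 2 * y ^ (-(1 / 2) : ℝ) := by
  have h1 : 0 < y ^ (-(1 / 2) : ℝ) := Real.rpow_pos_of_pos hy _
  have h2 := Real.log_le_sub_one_of_pos h1
  rw [Real.log_rpow hy] at h2
  linarith

theorem stp_bounded (hc : PS c B) {C0 : ℝ}
    (h : Tendsto (fun w : ℝ => ∑' n : ℕ, c n * (n : ℝ) ^ (-w)) (𝓝[>] 0) (𝓝 C0)) :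
    ∃ M : ℝ, ∀ u, 0 < u → |stp c u| ≤ M := by
  obtain ⟨u0, h2, hs⟩ := hc.slow1 one_pos
  have hB := hc.pos
  set K : ℝ := ∑' n : ℕ, |c n| * (n : ℝ) ^ (-(1 : ℝ)) with hK
  have hK0 : 0 ≤ K := tsum_nonneg fun n => by positivity
  have hb : ∀ u : ℝ, |stp c u| ≤ K * Real.exp (1 * u) := fun u =>
    stp_abs hc.zero (hc.summable one_pos) zero_le_one u
  set K1 : ℝ := K * Real.exp u0 with hK1
  have hK10 : 0 ≤ K1 := by positivity
  have hb1 : ∀ u : ℝ, u ≤ u0 → |stp c u| ≤ K1 := by
    intro u hu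
    refine (hb u).trans ?_
    rw [one_mul]
    exact mul_le_mul_of_nonneg_left (Real.exp_le_exp.2 hu) hK0
  have maj : ∀ U u : ℝ, u0 ≤ U → 0 < u → |stp c u - stp c U| ≤
      B * (U⁻¹ * u) + 2 * B * (U⁻¹ * u) ^ (-(1 / 2) : ℝ) + (1 + 2 * K1) := by
    intro U u hU hu
    have hU0 : 0 < U := by linarith
    set y := U⁻¹ * u with hy
    have hy0 : 0 < y := by positivity
    have hyd : u / U = y := by rw [hy]; ring
    have hr0 : 0 ≤ y ^ (-(1 / 2) : ℝ) := Real.rpow_nonneg hy0.le _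
    have hl1 : Real.log y ≤ y := (Real.log_le_sub_one_of_pos hy0).trans (by linarith)
    have hl2 := log_le_two_rpow hy0
    have e2 : Real.log (U / u) = -Real.log y := by
      rw [← hyd, ← Real.log_inv, inv_div]
    rcases le_total u U with h3 | h3
    · rcases le_total u0 u with h4 | h4
      · have h5 := hs u U h4 h3
        rw [abs_sub_comm, e2] at h5
        have h6 := mul_le_mul_of_nonneg_left hl2 hB.le
        have h7 : 0 ≤ B * y := by positivity
        linarith
      · have h5 := hs u0 U le_rfl hU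
        have h6 : Real.log (U / u0) ≤ Real.log (U / u) :=
          Real.log_le_log (by positivity) (div_le_div_of_nonneg_left hU0.le hu h4)
        rw [e2] at h6
        have h7 := mul_le_mul_of_nonneg_left (h6.trans hl2) hB.le
        have h8 : 0 ≤ B * y := by positivity
        have h9 := hb1 u h4
        have h10 := hb1 u0 le_rfl
        have h11 : |stp c u - stp c U| ≤ |stp c u| + |stp c u0| + |stp c U - stp c u0| := by
          have e : stp c u - stp c U = stp c u + -(stp c u0) + -(stp c U - stp c u0) := by ring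
          rw [e]
          refine (abs_add_three _ _ _).trans ?_
          rw [abs_neg, abs_neg]
        linarith
    · have h5 := hs U u hU h3
      rw [hyd] at h5
      have h6 := mul_le_mul_of_nonneg_left hl1 hB.le
      have h7 : 0 ≤ 2 * B * y ^ (-(1 / 2) : ℝ) := by positivity
      linarith
  set D : ℝ := 1 + 2 * K1 with hD
  set M0 : ℝ := ∫ t in Ioi (0 : ℝ), gm B D t with hM0
  have hcmp : ∀ U : ℝ, u0 ≤ U → |U⁻¹ * lap (stp c) U⁻¹ - stp c U| ≤ M0 := by
    intro U hU
    have hU0 : 0 < U := by linarith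
    have hw : 0 < U⁻¹ := inv_pos.2 hU0
    have i1 : LInt (stp c) U⁻¹ := stp_LInt hc.zero (fun _ h => hc.summable h) hw
    have hone : ∫ u in Ioi (0 : ℝ), Real.exp (-(U⁻¹ * u)) = U := by
      have := Pool.Agent.W263.BSD.one_lap hw
      unfold Pool.Agent.W263.BSD.lap at this
      simp only [one_mul] at this
      rw [this]
      simp
    have i2 : IntegrableOn (fun u : ℝ => Real.exp (-(U⁻¹ * u))) (Ioi 0) := by
      refine Integrable.of_integral_ne_zero ?_
      rw [hone]
      exact hU0.ne'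
    have i3 : IntegrableOn (fun u : ℝ => gm B D (U⁻¹ * u)) (Ioi 0) := by
      rw [integrableOn_Ioi_comp_mul_left_iff _ _ hw, mul_zero]
      exact gm_int B D
    have e3 : ∫ u in Ioi (0 : ℝ), gm B D (U⁻¹ * u) = U * M0 := by
      rw [integral_comp_mul_left_Ioi (gm B D) 0 hw, mul_zero, inv_inv, smul_eq_mul]
    have e4 : U⁻¹ * lap (stp c) U⁻¹ - stp c U =
        U⁻¹ * ∫ u in Ioi (0 : ℝ), (stp c u - stp c U) * Real.exp (-(U⁻¹ * u)) := by
      have : ∫ u in Ioi (0 : ℝ), (stp c u - stp c U) * Real.exp (-(U⁻¹ * u)) =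
          lap (stp c) U⁻¹ - stp c U * U := by
        simp only [sub_mul]
        rw [integral_sub i1 (i2.const_mul _), integral_const_mul, hone]
        rfl
      rw [this]
      field_simp
    rw [e4, abs_mul, abs_of_pos hw]
    have h5 : |∫ u in Ioi (0 : ℝ), (stp c u - stp c U) * Real.exp (-(U⁻¹ * u))| ≤
        ∫ u in Ioi (0 : ℝ), gm B D (U⁻¹ * u) := by
      rw [← Real.norm_eq_abs]
      refine norm_integral_le_of_norm_le i3 ?_
      filter_upwards [ae_restrict_mem measurableSet_Ioi] with u hu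
      have hu0 : (0 : ℝ) < u := hu
      rw [norm_mul, Real.norm_eq_abs, Real.norm_of_nonneg (Real.exp_pos _).le]
      unfold gm
      exact mul_le_mul_of_nonneg_right (maj U u hU hu0) (Real.exp_pos _).le
    rw [e3] at h5
    calc U⁻¹ * |∫ u in Ioi (0 : ℝ), (stp c u - stp c U) * Real.exp (-(U⁻¹ * u))| ≤
        U⁻¹ * (U * M0) := mul_le_mul_of_nonneg_left h5 hw.le
      _ = M0 := by field_simp
  -- the Laplace transform is bounded near `0`
  have h4 : Tendsto (fun U : ℝ => U⁻¹ * lap (stp c) U⁻¹) atTop (𝓝 C0) := by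
    have h5 : Tendsto (fun U : ℝ => U⁻¹) atTop (𝓝[>] (0 : ℝ)) := tendsto_inv_atTop_nhdsGT_zero
    refine (h.comp h5).congr' ?_
    filter_upwards [eventually_gt_atTop 0] with U hU
    simp only [Function.comp_apply]
    exact (stp_hasSum hc.zero (fun _ h => hc.summable h) (inv_pos.2 hU)).tsum_eq
  have h6 := h4.abs.eventually (gt_mem_nhds (show |C0| < |C0| + 1 by linarith))
  obtain ⟨U1, hU1⟩ := (h6.and (eventually_ge_atTop u0)).exists_forall_of_atTop
  refine ⟨|C0| + 1 + |M0| + K * Real.exp U1, fun u hu => ?_⟩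
  rcases le_total U1 u with h7 | h7
  · obtain ⟨h8, h9⟩ := hU1 u h7
    have h10 := hcmp u h9
    have h11 : |stp c u| ≤ |u⁻¹ * lap (stp c) u⁻¹| + |u⁻¹ * lap (stp c) u⁻¹ - stp c u| := by
      have e : stp c u = u⁻¹ * lap (stp c) u⁻¹ - (u⁻¹ * lap (stp c) u⁻¹ - stp c u) := by ring
      calc |stp c u| = |u⁻¹ * lap (stp c) u⁻¹ - (u⁻¹ * lap (stp c) u⁻¹ - stp c u)| := by rw [← e]
        _ ≤ _ := abs_sub _ _
    have h12 := le_abs_self M0
    have h13 : 0 ≤ K * Real.exp U1 := by positivity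
    linarith
  · have h8 := hb u
    rw [one_mul] at h8
    have h9 := mul_le_mul_of_nonneg_left (Real.exp_le_exp.2 h7) hK0
    have h10 := abs_nonneg C0
    have h11 := abs_nonneg M0
    linarith

theorem stp_tendsto (hc : PS c B) {C0 : ℝ}
    (h : Tendsto (fun w : ℝ => ∑' n : ℕ, c n * (n : ℝ) ^ (-w)) (𝓝[>] 0) (𝓝 C0)) :
    Tendsto (stp c) atTop (𝓝 C0) := by
  obtain ⟨M, hM⟩ := stp_bounded hc h
  refine tauber_limit (stp_meas c) (fun w hw => stp_LInt hc.zero (fun _ h => hc.summable h) hw) hM ?_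
    fun ε hε => stp_slow hc hε
  refine h.congr' ?_
  filter_upwards [self_mem_nhdsWithin] with w hw
  exact (stp_hasSum hc.zero (fun _ h => hc.summable h) hw).tsum_eq

end

variable {N : ℕ} [NeZero N] {f : CuspForm (Gamma0 N : Subgroup (GL (Fin 2) ℝ)) 2}

open Classical in
/-- Rankin and Selberg: `∑_{p ≤ x} a_p²/p² = log log x + c + o(1)` -/
theorem rankinSelberg (hf : Hecke f) {A B : ℤ} (hΔ : 4 * A ^ 3 + 27 * B ^ 2 ≠ 0)
    (hb : ∀ p : ℕ, Good A B p → Pool.Agent.W165.RS.ac f p = ((aP A B p : ℝ) : ℂ)) :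
    RankinSelberg A B := by
  obtain ⟨C, hC⟩ := hf.cr_limit
  have h1 := stp_tendsto hf.ps hC
  have h2 : Tendsto (fun x : ℕ => ∑ p ∈ (Finset.Icc 1 x).filter Nat.Prime, cr f p) atTop (𝓝 C) := by
    have h3 := h1.comp (Real.tendsto_log_atTop.comp (tendsto_natCast_atTop_atTop (R := ℝ)))
    refine h3.congr' ?_
    filter_upwards [eventually_ge_atTop 1] with x hx
    simp only [Function.comp_apply]
    unfold Pool.Agent.W263.BSD.stp
    rw [Real.exp_log (by exact_mod_cast hx), Nat.floor_natCast, Finset.sum_filter]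
    have h4 : Finset.range (x + 1) = insert 0 (Finset.Icc 1 x) := by
      ext n
      simp only [Finset.mem_range, Finset.mem_insert, Finset.mem_Icc]
      omega
    rw [h4, Finset.sum_insert (by simp), hf.ps.zero, zero_add]
    refine Finset.sum_congr rfl fun p _ => ?_
    split_ifs with hp
    · rfl
    · exact hf.ps.np p hp
  obtain ⟨M, hM⟩ := Pool.Agent.H305R2.mertens_inv_tendsto
  -- `g(p)/p`
  have h5 : Tendsto (fun x : ℕ => ∑ k ∈ Finset.range (Nat.primeCounting x),
      gg f (Pool.Agent.Q255.IC.pr k) / (Pool.Agent.Q255.IC.pr k : ℝ) - Real.log (Real.log x)) atTop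
      (𝓝 (C + M)) := by
    refine (h2.add hM).congr fun x => ?_
    rw [Pool.Agent.Q24.IR.sum_pr (fun p => gg f p / (p : ℝ)) x]
    have h6 : ∑ p ∈ (Finset.Icc 1 x).filter Nat.Prime, cr f p =
        ∑ p ∈ (Finset.Icc 1 x).filter Nat.Prime, (gg f p / (p : ℝ) - 1 / (p : ℝ)) := by
      refine Finset.sum_congr rfl fun p hp => ?_
      unfold Pool.Agent.TH941.cr
      rw [if_pos (Finset.mem_filter.1 hp).2]
      ring
    rw [h6, Finset.sum_sub_distrib]
    ring
  -- the bad primes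
  have hn : (2 * (4 * A ^ 3 + 27 * B ^ 2)).natAbs ≠ 0 := by
    rw [Ne, Int.natAbs_eq_zero]
    exact mul_ne_zero two_ne_zero hΔ
  set e : ℕ → ℝ := fun k => (if Good A B (Pool.Agent.Q255.IC.pr k) then
      aP A B (Pool.Agent.Q255.IC.pr k) ^ 2 / (Pool.Agent.Q255.IC.pr k : ℝ) ^ 2 else 0) -
      gg f (Pool.Agent.Q255.IC.pr k) / (Pool.Agent.Q255.IC.pr k : ℝ) with he
  obtain ⟨l, hl⟩ := Pool.Agent.Q24.IR.conv_of_bound (e := e) (C := 0) (by
    filter_upwards [eventually_ge_atTop (2 * (4 * A ^ 3 + 27 * B ^ 2)).natAbs] with k hk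
    have hg : Good A B (Pool.Agent.Q255.IC.pr k) := by
      refine ⟨Pool.Agent.Q255.IC.pr_prime k, fun hd => ?_⟩
      have h1 := Int.natCast_dvd.1 hd
      have h2 := Nat.le_of_dvd (Nat.pos_of_ne_zero hn) h1
      have := Pool.Agent.Q24.IR.pr_ge k
      omega
    rw [he]
    simp only [if_pos hg]
    have hp0 := Pool.Agent.Q255.IC.pr_pos k
    have h7 : gg f (Pool.Agent.Q255.IC.pr k) / (Pool.Agent.Q255.IC.pr k : ℝ) =
        aP A B (Pool.Agent.Q255.IC.pr k) ^ 2 / (Pool.Agent.Q255.IC.pr k : ℝ) ^ 2 := by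
      unfold Pool.Agent.TH941.gg
      rw [hb _ hg, Complex.norm_real, Real.norm_eq_abs, sq_abs]
      field_simp
    rw [h7, sub_self, abs_zero, zero_mul])
  refine ⟨l + (C + M), (hl.add h5).congr fun x => ?_⟩
  rw [he]
  simp only [Finset.sum_sub_distrib]
  ring

end Pool.Agent.Q255.IR
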