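import Pool.Agent.Q255.IC.Basic

/-!
# The price of the Birch and Swinnerton-Dyer asymptotic: statements

Signs `f(p_k) = sg ω k`, `ω : ℕ → Bool`; real numbers `b k → 0` with `∑ b_k² = ∞`; the sums
`S_n = ∑_{k<n} f(p_k) b_k`, `V_n = ∑_{k<n} b_k²`.  For an elliptic curve `b_k` is close to `a_p / p`,
`p = p_k`.
-/

set_option autoImplicit false

namespace Pool.Agent.Q255.IR

open Filter Topology MeasureTheory Pool.Agent.Q255.IC
open scoped ENNReal

/-- `S_n = ∑_{k<n} f(p_k) b_k` -/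
noncomputable def S (b : ℕ → ℝ) (ω : ℕ → Bool) (n : ℕ) : ℝ := ∑ k ∈ Finset.range n, sg ω k * b k

/-- `V_n = ∑_{k<n} b_k²` -/
noncomputable def V (b : ℕ → ℝ) (n : ℕ) : ℝ := ∑ k ∈ Finset.range n, b k ^ 2

/-- The relative entropy (nats) of the law of the first `n` signs to independent fair signs. -/
noncomputable def D (ν : Measure (ℕ → Bool)) (n : ℕ) : ℝ := n * Real.log 2 - entropy ν n

/-- The set of the `ω` whose first `n` signs form a word in `W`. -/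
def cyl {n : ℕ} (W : Finset (Fin n → Bool)) : Set (ℕ → Bool) := {ω | (fun k : Fin n => ω k) ∈ W}

/-! ## General facts -/

/-- Data processing.  `q (n log 2 - log (card W)) ≤ D_n + log 2`, `q` the probability of `W`.

Proof: `S_JEN` with one label (`Λ = Unit`), `g = (n log 2 - log (card W)) 1_W`: `(∑_s exp (g s))/2^n ≤ 2`.
(Or directly from the log sum inequality.)  If `W` is empty, `q = 0` and `D_n ≥ 0`
(`entropy ≤ n log 2`). -/
def S_DPI : Prop :=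
  ∀ (ν : Measure (ℕ → Bool)) [IsProbabilityMeasure ν] (n : ℕ) (W : Finset (Fin n → Bool)),
    0 ≤ D ν n ∧ ν.real (cyl W) * (n * Real.log 2 - Real.log W.card) ≤ D ν n + Real.log 2

/-- Large deviations of the sum under fair signs, both tails:
`#{s | κ V_n ≤ |∑ s_k b_k|} ≤ 2 · 2^n exp (-κ² V_n / 2)`.

Proof: `∑_s exp (κ ∑ s_k b_k) = ∏ 2 cosh (κ b_k) ≤ 2^n exp (κ² V_n/2)` (`cosh x ≤ exp (x²/2)`,
`Real.cosh_le_exp_half_sq`), Markov with `exp (κ · κ V_n)`. -/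
def S_LDV : Prop :=
  ∀ (b : ℕ → ℝ) (κ : ℝ) (n : ℕ), 0 ≤ κ →
    ((Finset.univ.filter fun s : Fin n → Bool =>
      κ * V b n ≤ |∑ k : Fin n, (if s k then (1 : ℝ) else -1) * b k|).card : ℝ) ≤
      2 * 2 ^ n * Real.exp (-(κ ^ 2 * V b n / 2))

/-- Price of a drift, at one scale: `ν(|S_n| ≥ κ V_n) (κ² V_n/2 - log 2) ≤ D_n + log 2`.

Proof: `S_DPI` with the set of `S_LDV` (empty set: trivial). -/
def S_ONE : Prop :=
  ∀ (ν : Measure (ℕ → Bool)) [IsProbabilityMeasure ν] (b : ℕ → ℝ) (κ : ℝ) (n : ℕ), 0 ≤ κ →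
    ν.real {ω | κ * V b n ≤ |S b ω n|} * (κ ^ 2 * V b n / 2 - Real.log 2) ≤ D ν n + Real.log 2

/-- The tilted law.  Independent signs with `E f(p_k) = -tanh (κ b_k)`: `D_n ≤ κ² V_n / 2` for all `n`, and
`S_n / V_n → -κ` almost surely.

Proof: product measure `Measure.infinitePi`; the relative entropy of one factor is `x tanh x - log cosh x
≤ x²/2`, `x = κ b_k`; entropies add.  `E S_n = -∑ b_k tanh (κ b_k) ~ -κ V_n` since `b_k → 0`, `V_n → ∞`.
`(S_n - E S_n)/V_n → 0` a.s.: centred bounded independent terms, `∑ b_k²/V_k² < ∞` (Kolmogorov and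
Kronecker), or blocks: along `n_j` = first `n` with `V_n ≥ j` the Hoeffding bound `2 exp (-ε² j/2)` is
summable, and between `n_j` and `n_{j+1}` use a maximal inequality (or the union over a subsequence
plus Doob).  See Pool/Agent/Q26/IC/Iid.lean for the i.i.d. case (entropy of a product). -/
def S_TILT : Prop :=
  ∀ (b : ℕ → ℝ) (κ : ℝ), Tendsto b atTop (𝓝 0) → Tendsto (V b) atTop atTop →
    ∃ ν : Measure (ℕ → Bool), IsProbabilityMeasure ν ∧ (∀ n, D ν n ≤ κ ^ 2 * V b n / 2) ∧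
      ∀ᵐ ω ∂ν, Tendsto (fun n => S b ω n / V b n) atTop (𝓝 (-κ))

/-! ## Small balls -/

/-- Concentration of a fair sum of variance `v ∈ [1, 2]` with terms `≤ δ`: the number of sign vectors
with `|∑ s_i b_i - c| ≤ δ` is at most `C δ 2^n`, `C` absolute, `0 < δ ≤ 1`.

Proof: Esseen: with `φ(t) = ∏ cos (b_i t)`, the probability is `≤ C₁ δ ∫_{|t| ≤ 1/δ} |φ(t)| dt` (use the
majorant `(sin (x/2δ)/(x/2δ))²`-type kernel, whose Fourier transform is a triangle supported in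
`[-1/δ, 1/δ]`), and `|cos u| ≤ exp (-u²/2)` for `|u| ≤ 1` gives `|φ(t)| ≤ exp (-v t²/2)` for
`|t| ≤ 1/δ ≤ 1/max |b_i|`.  (`cos u ≤ exp(-u²/2)`, `|u| ≤ π/2`, is in Mathlib or from
`Real.cos_le_one_sub_mul_cos_sq` type lemmas; any constant in the exponent is enough.) -/
def S_SB : Prop :=
  ∃ C : ℝ, 1 ≤ C ∧ ∀ (n : ℕ) (b : Fin n → ℝ) (c δ : ℝ), 0 < δ → δ ≤ 1 → (∀ i, |b i| ≤ δ) →
    1 ≤ ∑ i, b i ^ 2 → ∑ i, b i ^ 2 ≤ 2 →
      ((Finset.univ.filter fun s : Fin n → Bool =>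
        |(∑ i, (if s i then (1 : ℝ) else -1) * b i) - c| ≤ δ).card : ℝ) ≤ C * δ * 2 ^ n

/-- Many blocks.  Let `N 0 < N 1 < …` be indices with `1 ≤ V_{N(j+1)} - V_{N j} ≤ 2` and `|b k| ≤ δ` for
`k ≥ N J`.  For real `R ≥ 0` and `m ≥ J` the number of words of length `N m` such that for some `|ρ| ≤ R`
all block sums satisfy `|ΔS_j + ρ (g_{N(j+1)} - g_{N j}) + (h_{N(j+1)} - h_{N j})| ≤ δ`, `J ≤ j < m`, is at most
`(4 R G/δ + 2) (3 C δ)^(m-J) 2^{N m}` (for `3δ ≤ 1`), if `|g_{N(j+1)} - g_{N j}| ≤ G` for `j < m`, `G ≥ δ`.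

Proof: a net of `ρ` with mesh `δ/G` has at most `2 R G/δ + 2` points; for a net point the block conditions
hold with `2δ ≤ 3δ`; the blocks are disjoint coordinates, so the count is a product; `S_SB` with `3δ`
and `c = -(ρ Δg + Δh)`. -/
def S_BLOCKS : Prop :=
  ∃ C : ℝ, 1 ≤ C ∧ ∀ (b g h : ℕ → ℝ) (N : ℕ → ℕ) (J m : ℕ) (R G δ : ℝ), StrictMono N → J ≤ m →
    0 ≤ R → 0 < δ → 3 * δ ≤ 1 → δ ≤ G → (∀ k, N J ≤ k → |b k| ≤ δ) →
    (∀ j, 1 ≤ V b (N (j + 1)) - V b (N j) ∧ V b (N (j + 1)) - V b (N j) ≤ 2) →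
    (∀ j, j < m → |g (N (j + 1)) - g (N j)| ≤ G) →
    ∃ W : Finset (Fin (N m) → Bool), (W.card : ℝ) ≤ (4 * R * G / δ + 2) * (C * δ) ^ (m - J) * 2 ^ (N m) ∧
      {ω | ∃ ρ : ℝ, |ρ| ≤ R ∧ ∀ j, J ≤ j → j < m →
        |(S b ω (N (j + 1)) - S b ω (N j)) + ρ * (g (N (j + 1)) - g (N j)) +
          (h (N (j + 1)) - h (N j))| ≤ δ} ⊆ cyl W

/-- The exact asymptotic has no finite price.  If `D_n ≤ A V_n` for arbitrarily large `n`, then almost
surely `S_n + ρ g_n + h_n` converges for no real `ρ`; here `g`, `h` are any deterministic sequences,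
`|g_n| ≤ V_n²` for large `n`.

Proof.  Choose `N j` with `N 0 = 0`-ish and `V_{N(j+1)} - V_{N j} ∈ [1,2]` for all `j` (possible after a finite
start: `b → 0`, `V → ∞`; if some early `|b_k| > 1` start `N 0` later; the statement `S_BLOCKS` needs
it for all `j`, so take `N 0` large).  For `δ` small and integer `R` let `A_J` be the event: some `|ρ| ≤ R` has all
block sums with `j ≥ J` within `δ`.  If `S_n + ρ g_n + h_n` converges, `ω ∈ A_J` for large `J`.  For `n` large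
with `D_n ≤ A V_n` take `m` with `N m ≤ n < N (m+1)`, extend the words of `S_BLOCKS` (with `G = V_n² + 1` or so)
freely to length `n`: `S_DPI` gives `ν(A_J) ((m-J) log (1/(Cδ)) - log (4RG/δ+2)) ≤ A V_n + log 2`, and `V_n ≤
2(m+1) + V_{N 0}`.  Let `n → ∞`: `ν(A_J) log (1/(Cδ)) ≤ 2A` (outer measure through the cylinder sets); then
`J → ∞`, `δ → 0`, and sum over `R`. -/
def S_NOLIM : Prop :=
  ∀ (ν : Measure (ℕ → Bool)) [IsProbabilityMeasure ν] (b g h : ℕ → ℝ) (A : ℝ),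
    Tendsto b atTop (𝓝 0) → Tendsto (V b) atTop atTop → (∀ᶠ n in atTop, |g n| ≤ V b n ^ 2) →
    (∃ᶠ n in atTop, D ν n ≤ A * V b n) →
      ν {ω | ∃ ρ l : ℝ, Tendsto (fun n => S b ω n + ρ * g n + h n) atTop (𝓝 l)} = 0

/-! ## Steering -/

/-- Good patterns: a proportion `≥ p₀` of all sign vectors has `∑ s_i b_i ≥ √v/2` and all partial sums at
most `6 √v`, `v = ∑ b_i²`.

Proof: fourth moment `≤ 3v²` and Paley-Zygmund: `P(S² ≥ v/4) ≥ (3/4)²/3 = 3/16`; by symmetry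
`P(S ≥ √v/2) ≥ 3/32`; Kolmogorov's maximal inequality `P(max |S_m| > 6√v) ≤ 1/36`. -/
def S_PAT : Prop :=
  ∃ p₀ : ℝ, 0 < p₀ ∧ p₀ ≤ 1 ∧ ∀ (n : ℕ) (b : Fin n → ℝ), ∃ G : Finset (Fin n → Bool),
    p₀ * 2 ^ n ≤ (G.card : ℝ) ∧ ∀ s ∈ G,
      √(∑ i, b i ^ 2) / 2 ≤ ∑ i, (if s i then (1 : ℝ) else -1) * b i ∧
        ∀ m : ℕ, |∑ i : Fin n, if (i : ℕ) < m then (if s i then (1 : ℝ) else -1) * b i else 0| ≤
          6 * √(∑ i, b i ^ 2)

/-- A random branch of a tree.  `N 0 = 0 < N 1 < …`; every word `s` of length `N j` has a set `E j s` of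
allowed continuations of length `N (j+1)`, each of them extends `s`, and there are at least
`p₀ 2^{N(j+1)-N j}` of them.  Then some law lives on the branches, and `D_n ≤ (j+1) log (1/p₀)` for `N j ≤ n
≤ N (j+1)`.

Proof: choose exactly `M_j = ⌈p₀ 2^{N(j+1)-N j}⌉` continuations of every word, independently uniformly
distributed indices `i_j ∈ Fin M_j` (`Measure.infinitePi`), and push forward by the map that follows the
chosen continuations.  Every word of length `N J` has probability at most `∏_{j<J} 1/M_j ≤ 2^{-N J} p₀^{-J}`, so a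
word of length `n ≤ N (j+1)` has probability `≤ 2^{-n} p₀^{-(j+1)}` and `entropy ≥ n log 2 - (j+1) log (1/p₀)`. -/
def S_TREE : Prop :=
  ∀ (p₀ : ℝ) (N : ℕ → ℕ) (E : ∀ j : ℕ, (Fin (N j) → Bool) → Finset (Fin (N (j + 1)) → Bool)),
    0 < p₀ → p₀ ≤ 1 → N 0 = 0 → StrictMono N →
    (∀ j s, ∀ t ∈ E j s, ∀ (k : ℕ) (h1 : k < N j) (h2 : k < N (j + 1)), t ⟨k, h2⟩ = s ⟨k, h1⟩) →
    (∀ j s, p₀ * 2 ^ (N (j + 1) - N j) ≤ ((E j s).card : ℝ)) →
    ∃ ν : Measure (ℕ → Bool), IsProbabilityMeasure ν ∧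
      (∀ᵐ ω ∂ν, ∀ j, (fun k : Fin (N (j + 1)) => ω k) ∈ E j (fun k : Fin (N j) => ω k)) ∧
      ∀ j n, N j ≤ n → n ≤ N (j + 1) → D ν n ≤ (j + 1) * Real.log (1 / p₀)

/-- Blocks with slowly decreasing lengths `T j → 0` in the clock `V`: `T j ≤ V_{N(j+1)} - V_{N j} ≤ 2 T j`
for `j ≥ 1` (the block `0` is a finite start), `∑ √(T j) = ∞`, and the number of blocks up to `n` is at most
`ψ(n) V_n` for large `n`.

Proof: stages: in the stage `i` (`i = 1, 2, …`) take `T = 1/i` and a finite number `L_i ≥ √i` of blocks, so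
large that the next stage starts after an index beyond which `b_k² ≤ 1/(i+1)` and `ψ ≥ C₀ (i+2)`, with
`V ≥ 1`; the number of blocks up to `n` in the stage `i` is at most `i V_n + 1` after the start. -/
def S_CLOCK : Prop :=
  ∀ (b ψ : ℕ → ℝ) (K : ℝ), Tendsto b atTop (𝓝 0) → Tendsto (V b) atTop atTop → Tendsto ψ atTop atTop →
    0 < K →
    ∃ (N : ℕ → ℕ) (T : ℕ → ℝ), N 0 = 0 ∧ StrictMono N ∧ (∀ j, 0 < T j) ∧ Tendsto T atTop (𝓝 0) ∧
      (∀ j, 1 ≤ j → T j ≤ V b (N (j + 1)) - V b (N j) ∧ V b (N (j + 1)) - V b (N j) ≤ 2 * T j) ∧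
      Tendsto (fun J => ∑ j ∈ Finset.range J, √(T j)) atTop atTop ∧
      ∀ᶠ n in atTop, ∀ j, N j ≤ n → K * (j + 1) ≤ ψ n * V b n

/-- Steering, deterministic part: if in every block `j ≥ 1` the block sum `ΔS_j` has `|ΔS_j| ≥ √(ΔV_j)/2`
and all partial sums inside the block are at most `6 √(ΔV_j)`, and `ΔS_j` has the sign opposite to the
error `e_j = S_{N j} + ρ V_{N j} - l` (`ΔS_j ≤ 0` if `e_j ≥ 0`, `ΔS_j ≥ 0` if `e_j < 0`), then
`S_n + ρ V_n → l`.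

Proof: `ΔV_j ≤ 2 T j → 0`, so for large `j`, `|ρ| ΔV_j ≤ √(ΔV_j)/4`; then
`|e_{j+1}| ≤ max (|e_j| - √(ΔV_j)/4) (7 √(ΔV_j))`, and `∑ √(ΔV_j) = ∞`, so `e_j → 0`; inside a block the
error changes by at most `7 √(ΔV_j) → 0`. -/
def S_STEER : Prop :=
  ∀ (b : ℕ → ℝ) (ρ l : ℝ) (N : ℕ → ℕ) (T : ℕ → ℝ) (ω : ℕ → Bool), StrictMono N → (∀ j, 0 < T j) →
    Tendsto T atTop (𝓝 0) →
    (∀ j, 1 ≤ j → T j ≤ V b (N (j + 1)) - V b (N j) ∧ V b (N (j + 1)) - V b (N j) ≤ 2 * T j) →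
    Tendsto (fun J => ∑ j ∈ Finset.range J, √(T j)) atTop atTop →
    (∀ j, 1 ≤ j →
      √(V b (N (j + 1)) - V b (N j)) / 2 ≤ |S b ω (N (j + 1)) - S b ω (N j)| ∧
      (∀ n, N j ≤ n → n ≤ N (j + 1) → |S b ω n - S b ω (N j)| ≤ 6 * √(V b (N (j + 1)) - V b (N j))) ∧
      (0 ≤ S b ω (N j) + ρ * V b (N j) - l → S b ω (N (j + 1)) - S b ω (N j) ≤ 0) ∧
      (S b ω (N j) + ρ * V b (N j) - l < 0 → 0 ≤ S b ω (N (j + 1)) - S b ω (N j))) →
    Tendsto (fun n => S b ω n + ρ * V b n) atTop (𝓝 l)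

/-- Any larger price is enough: for every `ψ → ∞`, real `ρ` and `l` there is a law with `D_n ≤ ψ(n) V_n` for
large `n` and `S_n + ρ V_n → l` almost surely.

Proof: `S_CLOCK` with `K = log (1/p₀) + 1`; `S_TREE` with `E j s` = the continuations `t` of `s` whose new part is
`± η`, `η` a pattern of `S_PAT` for the block, the sign opposite to the sign of the error after `s`; for
`j = 0` the same; `S_STEER`. -/
def S_FREE : Prop :=
  ∀ (b ψ : ℕ → ℝ) (ρ l : ℝ), Tendsto b atTop (𝓝 0) → Tendsto (V b) atTop atTop →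
    Tendsto ψ atTop atTop →
    ∃ ν : Measure (ℕ → Bool), IsProbabilityMeasure ν ∧ (∀ᶠ n in atTop, D ν n ≤ ψ n * V b n) ∧
      ∀ᵐ ω ∂ν, Tendsto (fun n => S b ω n + ρ * V b n) atTop (𝓝 l)

/-! ## Elliptic curves -/

/-- `N_p`: the number of points of `y² = x³ + A x + B` modulo `p`, with the point at infinity. -/
noncomputable def numPoints (A B : ℤ) (p : ℕ) : ℕ :=
  Nat.card {q : ZMod p × ZMod p // q.2 ^ 2 = q.1 ^ 3 + (A : ZMod p) * q.1 + (B : ZMod p)} + 1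

/-- `p` is a prime that does not divide `2 (4 A³ + 27 B²)`. -/
def Good (A B : ℤ) (p : ℕ) : Prop := p.Prime ∧ ¬ ((p : ℤ) ∣ 2 * (4 * A ^ 3 + 27 * B ^ 2))

/-- `a_p = p + 1 - N_p` -/
noncomputable def aP (A B : ℤ) (p : ℕ) : ℝ := (p : ℝ) + 1 - numPoints A B p

open Classical in
/-- `b_k = log ((p + 1 + a_p) / (p + 1 - a_p)) / 2` at the good primes `p = p_k`, and `0` at the others;
`p + 1 - a_p = #E(F_p)`, `p + 1 + a_p` is the number of points of the quadratic twist. -/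
noncomputable def bE (A B : ℤ) (k : ℕ) : ℝ :=
  if Good A B (pr k) then
    Real.log ((pr k + 1 + aP A B (pr k)) / (pr k + 1 - aP A B (pr k))) / 2 else 0

open Classical in
/-- The geometric mean of the two products: `∑ log ((p + 1 + a_p) (p + 1 - a_p) / p²) / 2` over the good
`p ≤ x`. -/
noncomputable def mE (A B : ℤ) (x : ℕ) : ℝ :=
  ∑ k ∈ Finset.range (Nat.primeCounting x), if Good A B (pr k) then
    Real.log ((pr k + 1 + aP A B (pr k)) * (pr k + 1 - aP A B (pr k)) / (pr k : ℝ) ^ 2) / 2 else 0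

open Classical in
/-- The twisted Birch and Swinnerton-Dyer product `P_f(x) = ∏_{p ≤ x, p good} (p + 1 - f(p) a_p)/p`: at every
good prime with `f(p) = 1` it has `#E(F_p)/p`, and with `f(p) = -1` the same for the quadratic twist of
`E` over `F_p`. -/
noncomputable def P (A B : ℤ) (ω : ℕ → Bool) (x : ℕ) : ℝ :=
  ∏ k ∈ Finset.range (Nat.primeCounting x), if Good A B (pr k) then
    ((pr k : ℝ) + 1 - sg ω k * aP A B (pr k)) / pr k else 1

open Classical in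
/-- The theorem of Rankin and Selberg for `E`: `∑_{p ≤ x} a_p²/p² = log log x + c + o(1)`, the sum over
the good primes. -/
def RankinSelberg (A B : ℤ) : Prop :=
  ∃ c : ℝ, Tendsto (fun x : ℕ => (∑ k ∈ Finset.range (Nat.primeCounting x),
    if Good A B (pr k) then aP A B (pr k) ^ 2 / (pr k : ℝ) ^ 2 else 0) - Real.log (Real.log x))
      atTop (𝓝 c)

/-- Hasse: `|a_p| ≤ 2 √p` at the good primes (the theorem of Hasse is in the libraries: grep for Hasse in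
Pool/Agent, e.g. TH270, Q195, Y722, seeds of MP_3283e1_nt). -/
def S_HAS : Prop :=
  ∀ (A B : ℤ) (p : ℕ), 4 * A ^ 3 + 27 * B ^ 2 ≠ 0 → Good A B p → |aP A B p| ≤ 2 * √p

/-- The exact formula `log P_f(x) = mE(x) - S_{π(x)}` and `P_f(x) > 0`, `b_k → 0`, from Hasse: `p ≥ 3`,
`p + 1 - |a_p| ≥ (√p - 1)² > 0`. -/
def S_PR1 : Prop :=
  ∀ A B : ℤ, 4 * A ^ 3 + 27 * B ^ 2 ≠ 0 →
    Tendsto (bE A B) atTop (𝓝 0) ∧ ∀ (ω : ℕ → Bool) (x : ℕ), 0 < P A B ω x ∧
      Real.log (P A B ω x) = mE A B x - S (bE A B) ω (Nat.primeCounting x)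

/-- Asymptotics: with Rankin-Selberg `V_{π(x)} - log log x` and `mE(x) - (log log x)/2` converge.

Proof: with `u = a_p/p`, `|u| ≤ 2/√p`: `b_k = u + O(u/p + |u|³) = u + O(p^{-3/2})`, so `b_k² = u² + O(p^{-2})`;
`log ((1+1/p)² - u²)/2 = 1/p - u²/2 + O(p^{-2})`; Mertens: `∑_{p ≤ x} 1/p - log log x` converges (in the
libraries: grep for Mertens second theorem). -/
def S_PR2 : Prop :=
  ∀ A B : ℤ, 4 * A ^ 3 + 27 * B ^ 2 ≠ 0 → RankinSelberg A B →
    ∃ c c' : ℝ, Tendsto (fun x : ℕ => V (bE A B) (Nat.primeCounting x) - Real.log (Real.log x))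
        atTop (𝓝 c) ∧
      Tendsto (fun x : ℕ => mE A B x - Real.log (Real.log x) / 2) atTop (𝓝 c')

end Pool.Agent.Q255.IR
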